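import Pool.Agent.Helper53.UR.Hub
import Pool.Agent.Helper31.OL.Hard

/-!
# PROJECT UR (MP_c578c8_lc): languages of loops with questions are in unambiguous linear space
-/

set_option autoImplicit false

namespace Pool.Agent.Helper31.UR

open Pool.Agent.Helper65.LinSpace Pool.Agent.Helper53.UR
open Pool.Agent.Helper1.TE (USPACE)
open Pool.Agent.Helper53.CTG (ev Et)
open Pool.Agent.Helper31.OL (Lp OL)

/-- The answers. -/
theorem lt01_lt01 (x : ℕ) : lt01 0 (lt01 0 x) = lt01 0 x := by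
  unfold lt01
  split_ifs <;> simp_all

theorem umU_ok (hW : ∀ z : Qn, z.W = 2 ^ Et z.N z.q z.b z.c) (hP : ParOK) (L : Lp Qn ℕ ℕ)
    (pm : Qn → Qn) (flip : ℕ) : (umU L pm flip).Ok where
  hq o := (hP.1 (pm (L.q o)).n (pm (L.q o)).T).1
  hN o := (hP.1 (pm (L.q o)).n (pm (L.q o)).T).2.1
  hb o := (hP.1 (pm (L.q o)).n (pm (L.q o)).T).2.2.1
  hc o := (hP.1 (pm (L.q o)).n (pm (L.q o)).T).2.2.2.1
  hW o := hW (pm (L.q o))
  ht o m v x y z := hP.2.1 (pm (L.q o)) m v x y z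

theorem umU_bit (L : Lp Qn ℕ ℕ) (pm : Qn → Qn) (flip : ℕ) (o : L.B) :
    (umU L pm flip).bit o = Pool.Agent.Helper31.OL.bit (accPm pm) (L.q o) :=
  (lt01_lt01 _).symm

theorem umU_orun (L : Lp Qn ℕ ℕ) (pm : Qn → Qn) (flip : ℕ) (x i : ℕ) :
    (umU L pm flip).orun x i = L.st (accPm pm) x i := by
  induction i with
  | zero => rfl
  | succ i ih =>
    have h1 : (umU L pm flip).orun x (i + 1) =
        L.d ((umU L pm flip).orun x i, (umU L pm flip).bit ((umU L pm flip).orun x i)) := rfl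
    rw [h1, umU_bit, ih]
    unfold Pool.Agent.Helper31.OL.Lp.st
    rw [Function.iterate_succ_apply']
    rfl

theorem ls_tab {β : Type} [Ctx β] (T : Qn → ℕ → ℕ → ℕ → ℕ → ℕ → ℕ)
    (hT : LS (fun x : Qn × ℕ × ℕ × ℕ × ℕ × ℕ =>
      T x.1 x.2.1 x.2.2.1 x.2.2.2.1 x.2.2.2.2.1 x.2.2.2.2.2)) (g : β → Qn) (hg : LS g) :
    LS (fun x : β × ℕ × ℕ × ℕ × ℕ × ℕ =>
      T (g x.1) x.2.1 x.2.2.1 x.2.2.2.1 x.2.2.2.2.1 x.2.2.2.2.2) :=
  LS.comp (f := fun x : β × ℕ × ℕ × ℕ × ℕ × ℕ => (g x.1, x.2)) hT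
    (LS.prodMk (LS.comp hg LS.fst) LS.snd)

theorem ls_one {β : Type} [Ctx β] (T : Qn → ℕ → ℕ) (hT : LS (fun x : Qn × ℕ => T x.1 x.2))
    (g : β → Qn) (hg : LS g) : LS (fun x : β × ℕ => T (g x.1) x.2) :=
  LS.comp (f := fun x : β × ℕ => (g x.1, x.2)) hT (LS.prodMk (LS.comp hg LS.fst) LS.snd)

theorem umU_ls (hL : LSParOK) (hT : LS (fun x : Qn × ℕ × ℕ × ℕ × ℕ × ℕ =>
    x.1.t x.2.1 x.2.2.1 x.2.2.2.1 x.2.2.2.2.1 x.2.2.2.2.2)) (L : Lp Qn ℕ ℕ)
    (pm : Qn → Qn) (hpm : LS pm) (flip : ℕ) : (umU L pm flip).Ls := by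
  obtain ⟨_, _, _, _, _, _, _, hN, hq, hb, hc, hW, hs⟩ := hL
  have hz : LS (fun o : L.B => pm (L.q o)) := LS.comp hpm L.lq
  have hN' : LS (fun o : L.B => (pm (L.q o)).N) := LS.comp hN hz
  have hq' : LS (fun o : L.B => (pm (L.q o)).q) := LS.comp hq hz
  have hb' : LS (fun o : L.B => (pm (L.q o)).b) := LS.comp hb hz
  have hc' : LS (fun o : L.B => (pm (L.q o)).c) := LS.comp hc hz
  have hW' : LS (fun o : L.B => (pm (L.q o)).W) := LS.comp hW hz
  have ho' : LS (fun o : L.B => ifz flip (L.o o) (ifz (L.o o) 1 0)) :=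
    LS.ifz (LS.const flip) L.lo (LS.ifz L.lo (LS.const 1) (LS.const 0))
  exact {
    I := L.lI
    d := L.ld
    h := L.lh
    out := ho'
    N := hN'
    q := hq'
    b := hb'
    c := hc'
    W := hW'
    t := ls_tab Qn.t hT (fun o => pm (L.q o)) hz
    ts := ls_one Qn.s hs (fun o => pm (L.q o)) hz }

/-- The language of the machine. -/
theorem umU_lang (L : Lp Qn ℕ ℕ) (pm : Qn → Qn) (flip : ℕ) (F : ℕ → ℕ)
    (hF : L.Comp (accPm pm) F) :
    (umU L pm flip).Lang = {w | ifz flip (F (num w)) (ifz (F (num w)) 1 0) ≠ 0} := by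
  ext w
  obtain ⟨t, ht, ht', ho, -⟩ := hF (num w)
  have h1 : ∀ i, (umU L pm flip).h ((umU L pm flip).orun (num w) i) =
      L.h (L.st (accPm pm) (num w) i) := fun i => by rw [umU_orun]; rfl
  have h2 : (umU L pm flip).out ((umU L pm flip).orun (num w) t) =
      ifz flip (F (num w)) (ifz (F (num w)) 1 0) := by
    rw [umU_orun, ← ho]
    rfl
  constructor
  · rintro ⟨T, hT, hT', hT''⟩
    have h3 : T = t := by
      rcases Nat.lt_trichotomy T t with h | h | h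
      · exact absurd ((h1 T).trans (ht' T h)) hT'
      · exact h
      · exact absurd ((h1 t).symm.trans (hT t h)) ht
    subst h3
    rw [h2] at hT''
    exact hT''
  · intro h
    refine ⟨t, fun i hi => (h1 i).trans (ht' i hi), ?_, ?_⟩
    · rw [h1 t]
      exact ht
    · rw [h2]
      exact h

theorem umU_mem (hG : GenOK) (hW : ∀ z : Qn, z.W = 2 ^ Et z.N z.q z.b z.c) (hP : ParOK)
    (hL : LSParOK) (hT : LS (fun x : Qn × ℕ × ℕ × ℕ × ℕ × ℕ =>
    x.1.t x.2.1 x.2.2.1 x.2.2.2.1 x.2.2.2.2.1 x.2.2.2.2.2)) (L : Lp Qn ℕ ℕ)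
    (pm : Qn → Qn) (hpm : LS pm) (flip : ℕ) (F : ℕ → ℕ) (hF : L.Comp (accPm pm) F) :
    {w | ifz flip (F (num w)) (ifz (F (num w)) 1 0) ≠ 0} ∈ USPACE (fun n => (n : ℝ)) := by
  rw [← umU_lang L pm flip F hF]
  refine hG (umU L pm flip) (umU_ok hW hP L pm flip) (umU_ls hL hT L pm hpm flip) L.C L.lC ?_
  intro x j hj i
  obtain ⟨t, ht, ht', -, hb⟩ := hF x
  rw [umU_orun]
  refine hb j ?_ i
  by_contra hjt
  have h1 := hj t (by omega)
  rw [umU_orun] at h1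
  exact ht h1

/-- **OLM.** -/
theorem gOLM : GoalOLM := by
  intro hG hW hP hL hT pm hpm F hF
  obtain ⟨L, hLF⟩ := hF
  constructor
  · have h := umU_mem hG hW hP hL hT L pm hpm 0 F hLF
    exact h
  · have h := umU_mem hG hW hP hL hT L pm hpm 1 F hLF
    have h1 : {w : List Bool | ifz 1 (F (num w)) (ifz (F (num w)) 1 0) ≠ 0} =
        {w | F (num w) ≠ 0}ᶜ := by
      ext w
      simp only [Set.mem_ofPred_eq, Set.mem_compl_iff, ifz]
      by_cases h2 : F (num w) = 0 <;> simp [h2]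
    rw [h1] at h
    exact h

/-- **The theorem on hard languages.** -/
theorem qHardOL : QHardOL := by
  intro acc N hN c k hk
  obtain ⟨F, L, hF, hLF, hH⟩ := Pool.Agent.Helper31.OL.q_hard_ol acc N hN c k hk
  refine ⟨F, hF, fun Acc Good hC => ?_⟩
  subst hLF
  exact hH Acc Good hC

end Pool.Agent.Helper31.UR
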